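import Pool.Agent.Helper95.LN.Stmts

/-!
# Row PT1: the potential of a smeared charge at a point outside
-/

set_option autoImplicit false

namespace Pool.Agent.Helper11.LN

open MeasureTheory Filter
open Pool.Agent.Helper95.PW Pool.Agent.Helper95.LN

theorem pt1_nr (y : R3) : nr y = ‖(WithLp.toLp 2 y : EuclideanSpace ℝ (Fin 3))‖ := by
  rw [EuclideanSpace.norm_eq]
  simp [nr, Fin.sum_univ_three, sq_abs]

theorem pt1_tri (a b y : R3) : nr (a - b) ≤ nr (y - a) + nr (y - b) := by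
  rw [pt1_nr, pt1_nr, pt1_nr]
  have h : (WithLp.toLp 2 (a - b) : EuclideanSpace ℝ (Fin 3)) =
      WithLp.toLp 2 (y - b) - WithLp.toLp 2 (y - a) := by
    ext i
    simp
  rw [h, add_comm]
  exact norm_sub_le _ _

theorem pt1_comm (a b : R3) : nr (a - b) = nr (b - a) := by
  rw [pt1_nr, pt1_nr, WithLp.toLp_sub, WithLp.toLp_sub, norm_sub_rev]

theorem pt1_pd (i : Fin 3) (g : R3 → ℝ) (p w : R3) :
    pd i (fun y => g (y - p)) w = pd i g (w - p) := by
  unfold pd
  rw [fderiv_comp_sub]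

theorem pt1_lap (g : R3 → ℝ) (p w : R3) : lap (fun y => g (y - p)) w = lap g (w - p) := by
  unfold lap
  refine Finset.sum_congr rfl fun i _ => ?_
  have h : pd i (fun y => g (y - p)) = fun y => pd i g (y - p) := by
    funext y
    exact pt1_pd i g p y
  rw [h]
  exact pt1_pd i (pd i g) p w

theorem PT1 (h1 : ST_MVP) (h2 : ST_PHA) (h3 : ST_PHB) (h4 : ST_PHC) : ST_PT1 := by
  intro a p X0 ha hp
  obtain ⟨a1, a2, -, -, -⟩ := h2 a ha
  obtain ⟨b1, -⟩ := h3 a ha
  obtain ⟨-, -, -, c⟩ := h4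
  obtain ⟨-, -, c3, -⟩ := c a ha
  have hfar : ∀ w, nr (w - X0) ≤ a → a ≤ nr (w - p) := by
    intro w hw
    have := pt1_tri p X0 w
    linarith
  have hd : ContDiff ℝ (⊤ : ℕ∞) (fun y : R3 => ph a (y - p)) :=
    a1.comp (contDiff_id.sub contDiff_const)
  have key := (h1 (fun y => ph a (y - p)) X0 a hd ha).1 (fun w hw => by
    rw [pt1_lap, b1, c3 _ (hfar w hw), neg_zero])
  have hX : ph a (X0 - p) = 1 / nr (p - X0) := by
    rw [pt1_comm p X0]
    refine a2 _ ?_
    rw [pt1_comm]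
    linarith
  rw [hX] at key
  rw [mul_one_div] at key
  rw [← key]
  congr 1
  funext w
  rcases le_total (nr (w - X0)) a with h | h
  · rw [a2 _ (hfar w h)]
    ring
  · rw [c3 _ h]
    simp

end Pool.Agent.Helper11.LN
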